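import Pool.Agent.helper18.HCE.Main

/-!
# MP_a96873_gt: hyperbolic Coxeter groups embed discretely in the isometry groups of hyperbolic spaces

Every Gromov-hyperbolic Coxeter group (of finite rank) has, for some `n ≥ 1`, an injective
homomorphism into the group of all isometries of real hyperbolic `n`-space with discrete image
(topology of pointwise convergence), all of whose orbit maps are quasi-isometric embeddings.
-/

set_option autoImplicit false

universe u v

namespace Pool.Agent.Results.MP_a96873_gt.DiscreteEmbedding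

open Pool.Agent.HCE

/-- Every Gromov-hyperbolic Coxeter group of finite rank has a faithful discrete isometric action on some
real hyperbolic space `HypSp n`, `n ≥ 1`, with quasi-isometrically embedded orbits. -/
theorem result {B : Type u} {W : Type v} [Finite B] [Group W] {M : CoxeterMatrix B} (cs : CoxeterSystem M W)
    (hyp : ∃ δ : ℝ, ∀ x y z w : W, (cs.length (x⁻¹ * z) + cs.length (y⁻¹ * w) : ℝ) ≤
      max (cs.length (x⁻¹ * y) + cs.length (z⁻¹ * w) : ℝ) (cs.length (x⁻¹ * w) + cs.length (y⁻¹ * z) : ℝ) + δ) :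
    ∃ (n : ℕ) (ρ : W → HypSp n → HypSp n), 1 ≤ n ∧
      (∀ x, ρ 1 x = x) ∧ (∀ g h x, ρ (g * h) x = ρ g (ρ h x)) ∧ (∀ g x y, dist (ρ g x) (ρ g y) = dist x y) ∧
      Function.Injective ρ ∧ DiscreteTopology (Set.range ρ) ∧
      ∀ p : HypSp n, ∃ C : ℝ, 0 < C ∧ ∀ g h : W, (cs.length (g⁻¹ * h) : ℝ) ≤ C * dist (ρ g p) (ρ h p) + C ∧
        dist (ρ g p) (ρ h p) ≤ C * cs.length (g⁻¹ * h) :=
  main' cs hyp

end Pool.Agent.Results.MP_a96873_gt.DiscreteEmbedding
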